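/-
Project TGX, block C (criterion for exponential graph growth): definitions. Paper, section 1.
-/
import Pool.Agent.Lib.TGX.Defs

namespace Pool.Agent.Lib.TGX

open Equiv

/-- periodic words in the letters `S × S`: consecutive letters distinct, every element of `S` occurs
as a first and as a second index -/
def Wd (S : Type) (q : ℕ) : Type :=
  {w : ZMod q → S × S // (∀ k, w k ≠ w (k + 1)) ∧ (∀ i, ∃ k, (w k).1 = i) ∧
    ∀ j, ∃ k, (w k).2 = j}

/-- positions on the periodic words -/
abbrev Pos (S : Type) (q M : ℕ) : Type := Wd S q × ZMod (q * M)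

/-- reduction of positions modulo `q` -/
def red (q M : ℕ) : ZMod (q * M) →+* ZMod q := ZMod.castHom (dvd_mul_right q M) (ZMod q)

open Classical in
/-- the letter `l` moves `(w, k)` to `(w, k+1)` if `w k = l` and back -/
noncomputable def yfun {S : Type} {q M : ℕ} (l : S × S) (p : Pos S q M) : Pos S q M :=
  if p.1.1 (red q M p.2) = l then (p.1, p.2 + 1)
  else if p.1.1 (red q M p.2 - 1) = l then (p.1, p.2 - 1) else p

theorem yfun_invol {S : Type} {q M : ℕ} (l : S × S) :
    Function.Involutive (yfun (q := q) (M := M) l) := by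
  rintro ⟨w, k⟩
  by_cases h1 : w.1 (red q M k) = l
  · have e1 : yfun l (w, k) = (w, k + 1) := by simp [yfun, h1]
    have h2 : w.1 (red q M (k + 1)) ≠ l := by
      rw [map_add, map_one, ← h1]
      exact (w.2.1 _).symm
    have h3 : w.1 (red q M (k + 1) - 1) = l := by
      rw [map_add, map_one, add_sub_cancel_right, h1]
    rw [e1]
    simp only [yfun, h2, h3, if_true, if_false, add_sub_cancel_right]
  · by_cases h2 : w.1 (red q M k - 1) = l
    · have e1 : yfun l (w, k) = (w, k - 1) := by simp [yfun, h1, h2]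
      have h3 : w.1 (red q M (k - 1)) = l := by
        rw [map_sub, map_one, h2]
      rw [e1]
      simp only [yfun, h3, if_true, sub_add_cancel]
    · have e1 : yfun l (w, k) = (w, k) := by simp [yfun, h1, h2]
      rw [e1, e1]

/-- the involution of the letter `l` -/
noncomputable def yy {S : Type} {q M : ℕ} (l : S × S) : Perm (Pos S q M) :=
  (yfun_invol l).toPerm _

theorem yy_apply {S : Type} {q M : ℕ} (l : S × S) (p : Pos S q M) : yy l p = yfun l p := rfl

theorem yy_mul_self {S : Type} {q M : ℕ} (l : S × S) : (yy l : Perm (Pos S q M)) * yy l = 1 := by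
  ext1 p
  exact yfun_invol l p

/-- the group generated by the letters whose second index is not `j0` -/
def Yj {S : Type} (q M : ℕ) (j0 : S) : Subgroup (Perm (Pos S q M)) :=
  Subgroup.closure {g | ∃ i j, j ≠ j0 ∧ g = yy (i, j)}

/-- vertices of the big graph -/
abbrev VV (Ω S : Type) (q M : ℕ) : Type := Bool × Perm (Pos S q M) × Ω

/-- left vertex `u`, right vertex `v` adjacent -/
def relC {Ω S : Type} {q M : ℕ} (β : Ω → S) (u v : VV Ω S q M) : Prop :=
  u.1 = false ∧ v.1 = true ∧ v.2.1 = u.2.1 * yy (β u.2.2, β v.2.2)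

/-- the big graph -/
def GrC {Ω S : Type} (q M : ℕ) (β : Ω → S) : SimpleGraph (VV Ω S q M) where
  Adj u v := relC β u v ∨ relC β v u
  symm := ⟨fun _ _ h => h.symm⟩
  loopless := ⟨fun u h => by
    rcases h with h | h
    · have := h.1.symm.trans h.2.1
      exact Bool.false_ne_true this
    · have := h.1.symm.trans h.2.1
      exact Bool.false_ne_true this⟩

/-- automorphisms of the labelled graph `(Γ, lam)` that act on the labels of the neighbours of every
vertex by an element of `L` -/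
def Legal {V Ω : Type} (Γ : SimpleGraph V) (lam : V → Ω) (L : Subgroup (Perm Ω)) :
    Subgroup (Perm V) where
  carrier := {g | (∀ u v, Γ.Adj (g u) (g v) ↔ Γ.Adj u v) ∧
    ∀ v, ∃ l ∈ L, ∀ u, Γ.Adj v u → lam (g u) = l (lam u)}
  mul_mem' := by
    rintro g h ⟨g1, g2⟩ ⟨h1, h2⟩
    refine ⟨fun u v => by rw [Perm.mul_apply, Perm.mul_apply, g1, h1], fun v => ?_⟩
    obtain ⟨l, hl, hl'⟩ := h2 v
    obtain ⟨m, hm, hm'⟩ := g2 (h v)
    refine ⟨m * l, L.mul_mem hm hl, fun u hu => ?_⟩
    rw [Perm.mul_apply, Perm.mul_apply, hm' (h u) ((h1 v u).2 hu), hl' u hu]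
  one_mem' := ⟨fun _ _ => Iff.rfl, fun _ => ⟨1, L.one_mem, fun _ _ => rfl⟩⟩
  inv_mem' := by
    rintro g ⟨g1, g2⟩
    have g3 : ∀ u v, Γ.Adj (g⁻¹ u) (g⁻¹ v) ↔ Γ.Adj u v := fun u v => by
      rw [← g1 (g⁻¹ u) (g⁻¹ v)]; simp
    refine ⟨g3, fun v => ?_⟩
    obtain ⟨l, hl, hl'⟩ := g2 (g⁻¹ v)
    refine ⟨l⁻¹, L.inv_mem hl, fun u hu => ?_⟩
    have := hl' (g⁻¹ u) ((g3 v u).2 hu)
    rw [show g (g⁻¹ u) = u by simp] at this
    rw [this]
    simp

/-- the label of a vertex of the big graph -/
def lamC {Ω S : Type} {q M : ℕ} (v : VV Ω S q M) : Ω := v.2.2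

/-- the component of `v0` in the graph `Γ` -/
def comp {V : Type} (Γ : SimpleGraph V) (v0 : V) : Set V := {u | Γ.Reachable v0 u}

end Pool.Agent.Lib.TGX
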