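/-
TGX C.Cc. Symmetries of the involutions `yy (i, j)` on the positions.
PROOF. For permutations `σ, τ` of `S` the map `c (w, k) = (k ↦ (σ (w k).1, τ (w k).2), k)` is a
permutation of `Pos S q M` (the new word satisfies the three conditions of `Wd`; inverse with
`σ⁻¹, τ⁻¹`), and `c ∘ yfun (i,j) = yfun (σ i, τ j) ∘ c` by cases of the definition of `yfun`.
Second: `c (w, k) = (k ↦ ((w k).2, (w k).1), k)`.
-/
import Pool.Agent.Lib.TGX.C.DefsC

namespace Pool.Agent.Lib.TGX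

open Equiv

private def Cc_Q {S : Type} {q : ℕ} (w : ZMod q → S × S) : Prop :=
  (∀ k, w k ≠ w (k + 1)) ∧ (∀ i, ∃ k, (w k).1 = i) ∧ ∀ j, ∃ k, (w k).2 = j

private theorem Cc_gen {S : Type} {q M : ℕ} (f : Perm (S × S))
    (h1 : ∀ w : Wd S q, Cc_Q fun k => f (w.1 k)) (h2 : ∀ w : Wd S q, Cc_Q fun k => f.symm (w.1 k)) :
    ∃ c : Perm (Pos S q M), ∀ l, c * yy l * c⁻¹ = yy (f l) := by
  let e : Perm (Wd S q) :=
    { toFun := fun w => ⟨fun k => f (w.1 k), h1 w⟩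
      invFun := fun w => ⟨fun k => f.symm (w.1 k), h2 w⟩
      left_inv := fun w => Subtype.ext (funext fun k => f.symm_apply_apply (w.1 k))
      right_inv := fun w => Subtype.ext (funext fun k => f.apply_symm_apply (w.1 k)) }
  let c : Perm (Pos S q M) := Equiv.prodCongr e (Equiv.refl _)
  have hc : ∀ p : Pos S q M, c p = (e p.1, p.2) := fun p => rfl
  have he : ∀ (w : Wd S q) (k : ZMod q), (e w).1 k = f (w.1 k) := fun w k => rfl
  refine ⟨c, fun l => ?_⟩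
  rw [mul_inv_eq_iff_eq_mul]
  ext1 p
  rw [Perm.mul_apply, Perm.mul_apply, yy_apply, yy_apply, hc, hc]
  have hx : ∀ k : ZMod q, (e p.1).1 k = f l ↔ p.1.1 k = l := fun k => by
    rw [he]
    exact f.injective.eq_iff
  unfold yfun
  by_cases a : p.1.1 (red q M p.2) = l
  · rw [if_pos a, if_pos ((hx _).2 a)]
  · rw [if_neg a, if_neg (mt (hx _).1 a)]
    by_cases b : p.1.1 (red q M p.2 - 1) = l
    · rw [if_pos b, if_pos ((hx _).2 b)]
    · rw [if_neg b, if_neg (mt (hx _).1 b)]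

theorem exists_cc {S : Type} {q M : ℕ} (σ τ : Perm S) :
    ∃ c : Perm (Pos S q M), ∀ i j, c * yy (i, j) * c⁻¹ = yy (σ i, τ j) := by
  have key : ∀ (σ τ : Perm S) (w : Wd S q), Cc_Q fun k => (Equiv.prodCongr σ τ) (w.1 k) := by
    intro σ τ w
    obtain ⟨h1, h2, h3⟩ := w.2
    refine ⟨fun k h => h1 k ((Equiv.prodCongr σ τ).injective h), fun i => ?_, fun j => ?_⟩
    · obtain ⟨k, hk⟩ := h2 (σ.symm i)
      refine ⟨k, ?_⟩
      change σ (w.1 k).1 = i
      rw [hk, σ.apply_symm_apply]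
    · obtain ⟨k, hk⟩ := h3 (τ.symm j)
      refine ⟨k, ?_⟩
      change τ (w.1 k).2 = j
      rw [hk, τ.apply_symm_apply]
  obtain ⟨c, hc⟩ := Cc_gen (q := q) (M := M) (Equiv.prodCongr σ τ) (key σ τ)
    (fun w => key σ.symm τ.symm w)
  exact ⟨c, fun i j => hc (i, j)⟩

theorem exists_th {S : Type} {q M : ℕ} :
    ∃ c : Perm (Pos S q M), ∀ i j, c * yy (i, j) * c⁻¹ = yy (j, i) := by
  have key : ∀ w : Wd S q, Cc_Q fun k => (Equiv.prodComm S S) (w.1 k) := by
    intro w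
    obtain ⟨h1, h2, h3⟩ := w.2
    exact ⟨fun k h => h1 k ((Equiv.prodComm S S).injective h), fun i => h3 i, fun j => h2 j⟩
  obtain ⟨c, hc⟩ := Cc_gen (q := q) (M := M) (Equiv.prodComm S S) key (fun w => key w)
  exact ⟨c, fun i j => hc (i, j)⟩

end Pool.Agent.Lib.TGX
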