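/-
TGX C.Nbr. (nbr_unique) Every vertex of the big graph has exactly one neighbour with a given label.
PROOF. `v = (false, x, ω1)`: `(true, x * yy (β ω1, β ω), ω)`. `v = (true, x, ω1)`:
`(false, x * yy (β ω, β ω1), ω)`, because `x = x' * yy l ↔ x' = x * yy l` (`yy_mul_self`).
(exists_permS) An element `l ∈ L` induces a permutation of `S`: `l` and `l⁻¹` are in `L`, so
`β x = β y ↔ β (l x) = β (l y)`; define `σ (β x) = β (l x)` with a right inverse of `β`; it is
injective and surjective.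
-/
import Pool.Agent.Lib.TGX.C.DefsC

namespace Pool.Agent.Lib.TGX

open Equiv

theorem nbr_unique {Ω S : Type} {q M : ℕ} (β : Ω → S) (v : VV Ω S q M) (ω : Ω) :
    ∃! u, (GrC q M β).Adj v u ∧ lamC u = ω := by
  obtain ⟨b, x, ω1⟩ := v
  cases b with
  | false =>
    refine ⟨(true, x * yy (β ω1, β ω), ω), ⟨Or.inl ⟨rfl, rfl, rfl⟩, rfl⟩, ?_⟩
    rintro ⟨b', x', ω'⟩ ⟨h1, h2⟩
    have h2' : ω' = ω := h2
    subst h2'
    rcases h1 with h | h
    · obtain ⟨_, h3, h4⟩ := h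
      have h3' : b' = true := h3
      have h4' : x' = x * yy (β ω1, β ω') := h4
      subst h3'
      rw [h4']
    · obtain ⟨_, h3, _⟩ := h
      exact absurd h3 Bool.false_ne_true
  | true =>
    refine ⟨(false, x * yy (β ω, β ω1), ω), ⟨Or.inr ⟨rfl, rfl, ?_⟩, rfl⟩, ?_⟩
    · show x = x * yy (β ω, β ω1) * yy (β ω, β ω1)
      rw [mul_assoc, yy_mul_self, mul_one]
    · rintro ⟨b', x', ω'⟩ ⟨h1, h2⟩
      have h2' : ω' = ω := h2
      subst h2'
      rcases h1 with h | h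
      · obtain ⟨h3, _, _⟩ := h
        exact absurd h3.symm Bool.false_ne_true
      · obtain ⟨h3, _, h4⟩ := h
        have h3' : b' = false := h3
        have h4' : x = x' * yy (β ω', β ω1) := h4
        subst h3'
        rw [h4', mul_assoc, yy_mul_self, mul_one]

theorem exists_permS {Ω S : Type} (L : Subgroup (Perm Ω)) (β : Ω → S)
    (hβ : Function.Surjective β) (hL : ∀ l ∈ L, ∀ x y, β x = β y → β (l x) = β (l y))
    {l : Perm Ω} (hl : l ∈ L) : ∃ σ : Perm S, ∀ x, β (l x) = σ (β x) := by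
  obtain ⟨g, hg⟩ := hβ.hasRightInverse
  have e1 : ∀ x, β (l (g (β x))) = β (l x) := fun x => hL l hl _ _ (hg (β x))
  have e2 : ∀ x, β (l⁻¹ (g (β x))) = β (l⁻¹ x) := fun x =>
    hL l⁻¹ (L.inv_mem hl) _ _ (hg (β x))
  refine ⟨⟨fun s => β (l (g s)), fun s => β (l⁻¹ (g s)), fun s => ?_, fun s => ?_⟩, fun x => ?_⟩
  · show β (l⁻¹ (g (β (l (g s))))) = s
    rw [e2, show l⁻¹ (l (g s)) = g s by simp, hg]
  · show β (l (g (β (l⁻¹ (g s))))) = s
    rw [e1, show l (l⁻¹ (g s)) = g s by simp, hg]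
  · exact (e1 x).symm

end Pool.Agent.Lib.TGX
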