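/-
TGX C.Act. The legal automorphism group of the big graph is transitive and induces `L` at a vertex.
PROOF. Elements of `Legal (GrC q M β) lamC L`:
(trn h) `(b, x, ω) ↦ (b, h * x, ω)`, labels unchanged;
(act l1 l2), `l1, l2 ∈ L`: with `σ1, σ2` from `exists_permS` and `c` from `exists_cc σ1 σ2`:
 `(false, x, ω) ↦ (false, c * x * c⁻¹, l1 ω)`, `(true, x, ω) ↦ (true, c * x * c⁻¹, l2 ω)`. Edge
 `(false,x,ω) ~ (true, x yy(β ω, β ω'), ω')` goes to `(false, c x c⁻¹, l1 ω)`,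
 `(true, c x c⁻¹ * (c yy(..) c⁻¹), l2 ω')` and `c yy(β ω, β ω') c⁻¹ = yy (β (l1 ω), β (l2 ω'))`. At left
 vertices the labels of the neighbours change by `l2`, at right vertices by `l1`. It is a
 bijection that preserves adjacency in both directions (the inverse is of the same kind, or check
 the iff directly).
(swp) `c` from `exists_th`: `(b, x, ω) ↦ (!b, c * x * c⁻¹, ω)`; edge
 `(false,x,ω) ~ (true, x yy(i,j), ω')` goes to `(true, c x c⁻¹, ω)`, `(false, c x c⁻¹ yy(j,i), ω')`,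
 adjacent because `(c x c⁻¹ yy(j,i)) yy(j,i) = c x c⁻¹` (`yy_mul_self`); labels unchanged.
legal_trans: `(false, 1, ω)` goes to `(false, x, ω')` by `act l1 1` (`l1 ω = ω'`) and `trn x`; then
`swp` reaches the right vertices: for `(true, x, ω')` apply `swp` to `(false, 1, ω')` and `trn`.
legal_loc: `act 1 l` fixes `(false, 1, ω)`.
-/
import Pool.Agent.Lib.TGX.C.Cc
import Pool.Agent.Lib.TGX.C.Nbr

namespace Pool.Agent.Lib.TGX

open Equiv

/-- the permutation `(b, x, ω) ↦ (b, h * x, ω)` -/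
private def tgxAct_trn {Ω S : Type} {q M : ℕ} (h : Perm (Pos S q M)) : Perm (VV Ω S q M) where
  toFun v := (v.1, h * v.2.1, v.2.2)
  invFun v := (v.1, h⁻¹ * v.2.1, v.2.2)
  left_inv v := by simp
  right_inv v := by simp

private theorem tgxAct_trn_mem {Ω S : Type} {q M : ℕ} (L : Subgroup (Perm Ω)) (β : Ω → S)
    (h : Perm (Pos S q M)) : tgxAct_trn h ∈ Legal (GrC q M β) lamC L := by
  have key : ∀ u v : VV Ω S q M, relC β (tgxAct_trn h u) (tgxAct_trn h v) ↔ relC β u v := by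
    intro u v
    show (u.1 = false ∧ v.1 = true ∧ h * v.2.1 = h * u.2.1 * yy (β u.2.2, β v.2.2)) ↔ _
    rw [mul_assoc, mul_right_inj]
    exact Iff.rfl
  refine ⟨fun u v => ?_, fun v => ⟨1, L.one_mem, fun u _ => rfl⟩⟩
  show (relC β _ _ ∨ relC β _ _) ↔ (relC β _ _ ∨ relC β _ _)
  rw [key, key]

/-- the permutation `(false, x, ω) ↦ (false, c x c⁻¹, l1 ω)`, `(true, x, ω) ↦ (true, c x c⁻¹, l2 ω)` -/
private def tgxAct_act {Ω S : Type} {q M : ℕ} (c : Perm (Pos S q M)) (l1 l2 : Perm Ω) :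
    Perm (VV Ω S q M) where
  toFun v := (v.1, c * v.2.1 * c⁻¹, (bif v.1 then l2 else l1) v.2.2)
  invFun v := (v.1, c⁻¹ * v.2.1 * c, (bif v.1 then l2 else l1)⁻¹ v.2.2)
  left_inv v := by
    obtain ⟨b, x, ω⟩ := v
    simp [mul_assoc]
  right_inv v := by
    obtain ⟨b, x, ω⟩ := v
    simp [mul_assoc]

private theorem tgxAct_act_mem {Ω S : Type} {q M : ℕ} (L : Subgroup (Perm Ω)) (β : Ω → S)
    (c : Perm (Pos S q M)) {l1 l2 : Perm Ω} (h1 : l1 ∈ L) (h2 : l2 ∈ L)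
    (hc : ∀ x y, c * yy (β x, β y) * c⁻¹ = yy (β (l1 x), β (l2 y))) :
    tgxAct_act c l1 l2 ∈ Legal (GrC q M β) lamC L := by
  have key : ∀ u v : VV Ω S q M,
      relC β (tgxAct_act c l1 l2 u) (tgxAct_act c l1 l2 v) ↔ relC β u v := by
    rintro ⟨b, x, ω⟩ ⟨b', x', ω'⟩
    show (b = false ∧ b' = true ∧ c * x' * c⁻¹ = c * x * c⁻¹ *
      yy (β ((bif b then l2 else l1) ω), β ((bif b' then l2 else l1) ω'))) ↔
      (b = false ∧ b' = true ∧ x' = x * yy (β ω, β ω'))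
    refine and_congr_right fun hb => and_congr_right fun hb' => ?_
    subst hb hb'
    show c * x' * c⁻¹ = c * x * c⁻¹ * yy (β (l1 ω), β (l2 ω')) ↔ _
    rw [← hc]
    have e : c * x * c⁻¹ * (c * yy (β ω, β ω') * c⁻¹) = c * (x * yy (β ω, β ω')) * c⁻¹ := by
      group
    rw [e, mul_left_inj, mul_right_inj]
  refine ⟨fun u v => ?_, fun v => ?_⟩
  · show (relC β _ _ ∨ relC β _ _) ↔ (relC β _ _ ∨ relC β _ _)
    rw [key, key]
  · obtain ⟨b, x, ω⟩ := v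
    cases b
    · refine ⟨l2, h2, ?_⟩
      rintro ⟨b', x', ω'⟩ (h | h)
      · have hb : b' = true := h.2.1
        subst hb
        rfl
      · exact absurd h.2.1 Bool.false_ne_true
    · refine ⟨l1, h1, ?_⟩
      rintro ⟨b', x', ω'⟩ (h | h)
      · exact absurd h.1.symm Bool.false_ne_true
      · have hb : b' = false := h.1
        subst hb
        rfl

/-- the permutation `(b, x, ω) ↦ (!b, c x c⁻¹, ω)` -/
private def tgxAct_swp {Ω S : Type} {q M : ℕ} (c : Perm (Pos S q M)) : Perm (VV Ω S q M) where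
  toFun v := (!v.1, c * v.2.1 * c⁻¹, v.2.2)
  invFun v := (!v.1, c⁻¹ * v.2.1 * c, v.2.2)
  left_inv v := by
    obtain ⟨b, x, ω⟩ := v
    simp [mul_assoc]
  right_inv v := by
    obtain ⟨b, x, ω⟩ := v
    simp [mul_assoc]

private theorem tgxAct_swp_mem {Ω S : Type} {q M : ℕ} (L : Subgroup (Perm Ω)) (β : Ω → S)
    (c : Perm (Pos S q M)) (hc : ∀ i j, c * yy (i, j) * c⁻¹ = yy (j, i)) :
    tgxAct_swp c ∈ Legal (GrC q M β) lamC L := by
  have key : ∀ u v : VV Ω S q M,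
      relC β (tgxAct_swp c u) (tgxAct_swp c v) ↔ relC β v u := by
    rintro ⟨b, x, ω⟩ ⟨b', x', ω'⟩
    show ((!b) = false ∧ (!b') = true ∧ c * x' * c⁻¹ = c * x * c⁻¹ * yy (β ω, β ω')) ↔
      (b' = false ∧ b = true ∧ x = x' * yy (β ω', β ω))
    have e0 : yy (β ω, β ω') = c * yy (β ω', β ω) * c⁻¹ := (hc _ _).symm
    have e : c * x * c⁻¹ * (c * yy (β ω', β ω) * c⁻¹) = c * (x * yy (β ω', β ω)) * c⁻¹ := by
      group
    rw [e0, e, mul_left_inj, mul_right_inj]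
    have e3 : x' = x * yy (β ω', β ω) ↔ x = x' * yy (β ω', β ω) := by
      constructor
      · intro h
        rw [h, mul_assoc, yy_mul_self, mul_one]
      · intro h
        rw [h, mul_assoc, yy_mul_self, mul_one]
    rw [e3]
    cases b <;> cases b' <;> simp
  refine ⟨fun u v => ?_, fun v => ⟨1, L.one_mem, fun u _ => rfl⟩⟩
  show (relC β _ _ ∨ relC β _ _) ↔ (relC β _ _ ∨ relC β _ _)
  rw [key, key]
  exact Or.comm

private theorem tgxAct_exists {Ω S : Type} {q M : ℕ} (L : Subgroup (Perm Ω)) (β : Ω → S)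
    (hβ : Function.Surjective β) (hL : ∀ l ∈ L, ∀ x y, β x = β y → β (l x) = β (l y))
    {l1 l2 : Perm Ω} (h1 : l1 ∈ L) (h2 : l2 ∈ L) :
    ∃ c : Perm (Pos S q M), tgxAct_act c l1 l2 ∈ Legal (GrC q M β) lamC L := by
  obtain ⟨σ1, hσ1⟩ := exists_permS L β hβ hL h1
  obtain ⟨σ2, hσ2⟩ := exists_permS L β hβ hL h2
  obtain ⟨c, hc⟩ := exists_cc (q := q) (M := M) σ1 σ2
  exact ⟨c, tgxAct_act_mem L β c h1 h2 fun x y => by rw [hc, hσ1, hσ2]⟩

private theorem tgxAct_left {Ω S : Type} {q M : ℕ} (L : Subgroup (Perm Ω))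
    (htr : ∀ x y : Ω, ∃ g ∈ L, g x = y) (β : Ω → S) (hβ : Function.Surjective β)
    (hL : ∀ l ∈ L, ∀ x y, β x = β y → β (l x) = β (l y)) (ω : Ω) (v : VV Ω S q M) :
    ∃ g ∈ Legal (GrC q M β) lamC L, g (false, 1, ω) = v := by
  have h0 : ∀ (x : Perm (Pos S q M)) (ω' : Ω),
      ∃ g ∈ Legal (GrC q M β) lamC L, g (false, 1, ω) = (false, x, ω') := by
    intro x ω'
    obtain ⟨l1, hl1, e1⟩ := htr ω ω'
    obtain ⟨c, hc⟩ := tgxAct_exists (q := q) (M := M) L β hβ hL hl1 L.one_mem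
    refine ⟨tgxAct_trn x * tgxAct_act c l1 1,
      (Legal (GrC q M β) lamC L).mul_mem (tgxAct_trn_mem L β x) hc, ?_⟩
    show (false, x * (c * 1 * c⁻¹), l1 ω) = (false, x, ω')
    rw [e1]
    simp
  obtain ⟨b, x, ω'⟩ := v
  cases b
  · exact h0 x ω'
  · obtain ⟨g, hg, e⟩ := h0 1 ω'
    obtain ⟨c, hc⟩ := exists_th (S := S) (q := q) (M := M)
    refine ⟨tgxAct_trn x * (tgxAct_swp c * g),
      (Legal (GrC q M β) lamC L).mul_mem (tgxAct_trn_mem L β x)
        ((Legal (GrC q M β) lamC L).mul_mem (tgxAct_swp_mem L β c hc) hg), ?_⟩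
    rw [Perm.mul_apply, Perm.mul_apply, e]
    show (!false, x * (c * 1 * c⁻¹), ω') = (true, x, ω')
    simp

theorem legal_trans {Ω S : Type} {q M : ℕ} (L : Subgroup (Perm Ω))
    (htr : ∀ x y : Ω, ∃ g ∈ L, g x = y) (β : Ω → S) (hβ : Function.Surjective β)
    (hL : ∀ l ∈ L, ∀ x y, β x = β y → β (l x) = β (l y)) (u v : VV Ω S q M) :
    ∃ g ∈ Legal (GrC q M β) lamC L, g u = v := by
  obtain ⟨g, hg, e⟩ := tgxAct_left L htr β hβ hL u.2.2 u
  obtain ⟨h, hh, e'⟩ := tgxAct_left L htr β hβ hL u.2.2 v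
  refine ⟨h * g⁻¹, (Legal (GrC q M β) lamC L).mul_mem hh
    ((Legal (GrC q M β) lamC L).inv_mem hg), ?_⟩
  rw [Perm.mul_apply, ← e', Perm.inv_eq_iff_eq.2 e.symm]

theorem legal_loc {Ω S : Type} {q M : ℕ} (L : Subgroup (Perm Ω)) (β : Ω → S)
    (hβ : Function.Surjective β) (hL : ∀ l ∈ L, ∀ x y, β x = β y → β (l x) = β (l y)) (ω : Ω)
    {l : Perm Ω} (hl : l ∈ L) :
    ∃ g ∈ Legal (GrC q M β) lamC L, g (false, 1, ω) = (false, 1, ω) ∧
      ∀ u, (GrC q M β).Adj (false, 1, ω) u → lamC (g u) = l (lamC u) := by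
  obtain ⟨c, hc⟩ := tgxAct_exists (q := q) (M := M) L β hβ hL L.one_mem hl
  refine ⟨tgxAct_act c 1 l, hc, ?_, ?_⟩
  · show (false, c * 1 * c⁻¹, ω) = (false, 1, ω)
    simp
  · rintro ⟨b', x', ω'⟩ (h | h)
    · have hb : b' = true := h.2.1
      subst hb
      rfl
    · exact absurd h.2.1 Bool.false_ne_true

end Pool.Agent.Lib.TGX
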