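/-
TGX C.Bound (paper (S2)). The group generated by the letters with second index `≠ j0` has order
bounded independently of `M`.
PROOF. For `w : Wd S q` choose `κ w : ZMod q` with `(w (κ w)).2 = j0`. Define
`Φ : Wd S q × ZMod M × Fin q → Pos S q M`, `Φ (w, u, t) = (w, (κ w).val + 1 + t + q * u.val)`
(natural numbers cast to `ZMod (q * M)`; `q * u.val` only depends on `u`). `Φ` is surjective: for
`k : ZMod (q M)` write `(k - (κ w).val - 1).val = t + q u` with `t < q`, `u < M`. On
`Wd S q × Fin q` let the letter `l = (i,j)`, `j ≠ j0`, act by `ŷ_l`: `(w,t) ↦ (w,t+1)` if `t + 1 < q` and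
`w (κ w + 1 + t) = l`; `(w,t) ↦ (w,t-1)` if `t ≥ 1` and `w (κ w + t) = l`; else fixed. Then
`yy l (Φ (w,u,t)) = Φ (w,u,t')`, `(w,t') = ŷ_l (w,t)`: the letter at the position of `Φ(w,u,t)` is
`w (κ w + 1 + t)`, for `t = q - 1` it is `w (κ w + q) = w (κ w)`, whose second index is `j0`, so `≠ l`;
for `t = 0` the previous letter is `w (κ w) ≠ l`. Let `H` be the set of `h : Perm (Pos S q M)` for which
there is `ĥ : Perm (Wd S q × Fin q)` with `(ĥ (w,t)).1 = w` and
`h (Φ (w,u,t)) = Φ (w, u, (ĥ (w,t)).2)` for all `w,u,t`: a subgroup containing the generators of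
`Yj q M j0` (`ŷ_l` is an involution, so a permutation; or use all functions and finiteness). `Φ` is
surjective, so `h` is determined by `ĥ`: choose `ĥ` for every `h ∈ Yj`, an injection
`Yj → Perm (Wd S q × Fin q)`.
-/
import Pool.Agent.Lib.TGX.C.DefsC

namespace Pool.Agent.Lib.TGX

open Equiv

private def bdtau {S : Type} {q M : ℕ} (p : Pos S q M) : Pos S q M := (p.1, p.2 + (q : ZMod (q * M)))

private theorem bdtau_iter {S : Type} {q M : ℕ} (n : ℕ) (p : Pos S q M) :
    bdtau^[n] p = (p.1, p.2 + (n : ZMod (q * M)) * (q : ZMod (q * M))) := by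
  induction n with
  | zero => simp
  | succ n ih =>
    rw [Function.iterate_succ_apply', ih]
    unfold bdtau
    ext
    · rfl
    · push_cast; ring

private theorem bd_red_q {q M : ℕ} : red q M (q : ZMod (q * M)) = 0 := by
  rw [map_natCast, ZMod.natCast_self]

private theorem bdtau_y {S : Type} {q M : ℕ} (l : S × S) (p : Pos S q M) :
    yfun l (bdtau p) = bdtau (yfun l p) := by
  have h1 : red q M (bdtau p).2 = red q M p.2 := by
    unfold bdtau
    rw [map_add, bd_red_q, add_zero]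
  have h0 : (bdtau p).1 = p.1 := rfl
  unfold yfun
  rw [h1, h0]
  by_cases h2 : p.1.1 (red q M p.2) = l
  · rw [if_pos h2, if_pos h2]
    unfold bdtau
    ext
    · rfl
    · show p.2 + (q : ZMod (q * M)) + 1 = p.2 + 1 + (q : ZMod (q * M))
      ring
  · rw [if_neg h2, if_neg h2]
    by_cases h3 : p.1.1 (red q M p.2 - 1) = l
    · rw [if_pos h3, if_pos h3]
      unfold bdtau
      ext
      · rfl
      · show p.2 + (q : ZMod (q * M)) - 1 = p.2 - 1 + (q : ZMod (q * M))
        ring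
    · rw [if_neg h3, if_neg h3]

private def bdW {S : Type} {q M : ℕ} (κ : Wd S q → ZMod q) (p : Pos S q M) : Prop :=
  ∃ t : ℕ, t < q ∧ p.2 = (((κ p.1).val + 1 + t : ℕ) : ZMod (q * M))

private theorem bdW_y {S : Type} {q M : ℕ} [NeZero q] {j0 : S} (κ : Wd S q → ZMod q)
    (hκ : ∀ w : Wd S q, (w.1 (κ w)).2 = j0) {i j : S} (hj : j ≠ j0) {p : Pos S q M} (hp : bdW κ p) :
    bdW κ (yfun (i, j) p) := by
  obtain ⟨w, k⟩ := p
  obtain ⟨t, ht, hk⟩ := hp
  simp only at hk
  have hred : red q M k = κ w + 1 + (t : ZMod q) := by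
    rw [hk, map_natCast]
    push_cast
    rw [ZMod.natCast_zmod_val]
  unfold yfun
  simp only
  by_cases h2 : w.1 (red q M k) = (i, j)
  · rw [if_pos h2]
    have ht' : t + 1 < q := by
      rcases Nat.lt_or_ge (t + 1) q with h | h
      · exact h
      · exfalso
        have h3 : ((t + 1 : ℕ) : ZMod q) = 0 := by
          rw [show t + 1 = q by omega, ZMod.natCast_self]
        have h4 : red q M k = κ w := by
          rw [hred, add_assoc, show (1 : ZMod q) + (t : ZMod q) = ((t + 1 : ℕ) : ZMod q) by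
            push_cast; ring, h3, add_zero]
        have h5 := hκ w
        rw [← h4, h2] at h5
        exact hj h5
    exact ⟨t + 1, ht', by simp only [hk]; push_cast; ring⟩
  · rw [if_neg h2]
    by_cases h3 : w.1 (red q M k - 1) = (i, j)
    · rw [if_pos h3]
      have ht' : 1 ≤ t := by
        rcases Nat.eq_zero_or_pos t with h | h
        · exfalso
          have h4 : red q M k - 1 = κ w := by
            rw [hred, h]; push_cast; ring
          have h5 := hκ w
          rw [← h4, h3] at h5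
          exact hj h5
        · exact h
      obtain ⟨t', rfl⟩ := Nat.exists_eq_add_of_le ht'
      exact ⟨t', by omega, by simp only [hk]; push_cast; ring⟩
    · rw [if_neg h3]
      exact ⟨t, ht, hk⟩

private theorem bd_cover {S : Type} {q M : ℕ} [NeZero q] [NeZero M] (κ : Wd S q → ZMod q)
    (p : Pos S q M) : ∃ (n : ℕ) (p0 : Pos S q M), bdW κ p0 ∧ p = bdtau^[n] p0 := by
  obtain ⟨w, k⟩ := p
  have : NeZero (q * M) := ⟨Nat.mul_ne_zero (NeZero.ne q) (NeZero.ne M)⟩
  set d := (k - (((κ w).val + 1 : ℕ) : ZMod (q * M))).val with hd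
  have h1 : (d : ZMod (q * M)) = k - (((κ w).val + 1 : ℕ) : ZMod (q * M)) := by
    rw [hd, ZMod.natCast_zmod_val]
  have h2 : (d : ZMod (q * M)) = ((d % q : ℕ) : ZMod (q * M)) +
      ((d / q : ℕ) : ZMod (q * M)) * (q : ZMod (q * M)) := by
    conv_lhs => rw [← Nat.mod_add_div d q]
    push_cast; ring
  refine ⟨d / q, (w, (((κ w).val + 1 + d % q : ℕ) : ZMod (q * M))),
    ⟨d % q, Nat.mod_lt _ (Nat.pos_of_ne_zero (NeZero.ne q)), rfl⟩, ?_⟩
  rw [bdtau_iter]
  ext
  · rfl
  · show k = _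
    have h3 : k = (d : ZMod (q * M)) + (((κ w).val + 1 : ℕ) : ZMod (q * M)) := by
      rw [h1, sub_add_cancel]
    rw [h3, h2]
    push_cast; ring

theorem card_Yj_le (S : Type) [Finite S] (q M : ℕ) [NeZero q] [NeZero M] (j0 : S) :
    Nat.card (Yj q M j0 : Subgroup (Perm (Pos S q M))) ≤
      Nat.card (Perm (Wd S q × Fin q)) := by
  have hκ' : ∀ w : Wd S q, ∃ k, (w.1 k).2 = j0 := fun w => w.2.2.2 j0
  choose κ hκ using hκ'
  have : NeZero (q * M) := ⟨Nat.mul_ne_zero (NeZero.ne q) (NeZero.ne M)⟩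
  have hfW : Finite (Wd S q) := by unfold Wd; infer_instance
  have hfP : Finite (Pos S q M) := by unfold Pos; infer_instance
  have hgen : ∀ h ∈ (Yj q M j0 : Subgroup (Perm (Pos S q M))),
      (∀ p, bdW κ (h p) ↔ bdW κ p) ∧ ∀ p, h (bdtau p) = bdtau (h p) := by
    intro h hh
    refine Subgroup.closure_induction (p := fun h _ => (∀ p, bdW κ (h p) ↔ bdW κ p) ∧
      ∀ p, h (bdtau p) = bdtau (h p)) ?_ ?_ ?_ ?_ hh
    · rintro _ ⟨i, j, hj, rfl⟩
      refine ⟨fun p => ⟨fun hp => ?_, fun hp => bdW_y κ hκ hj hp⟩, fun p => bdtau_y _ p⟩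
      have h1 := bdW_y κ hκ (i := i) hj hp
      rw [yy_apply, yfun_invol] at h1
      exact h1
    · exact ⟨fun p => Iff.rfl, fun p => rfl⟩
    · rintro g h _ _ ⟨g1, g2⟩ ⟨h1, h2⟩
      exact ⟨fun p => by rw [Perm.mul_apply, g1, h1], fun p => by
        rw [Perm.mul_apply, Perm.mul_apply, h2, g2]⟩
    · rintro g _ ⟨g1, g2⟩
      refine ⟨fun p => ?_, fun p => ?_⟩
      · rw [← g1 (g⁻¹ p)]; simp
      · rw [Perm.inv_eq_iff_eq, g2]; simp
  have hit : ∀ h ∈ (Yj q M j0 : Subgroup (Perm (Pos S q M))), ∀ n p,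
      h (bdtau^[n] p) = bdtau^[n] (h p) := by
    intro h hh n p
    induction n with
    | zero => rfl
    | succ n ih => rw [Function.iterate_succ_apply', Function.iterate_succ_apply', (hgen h hh).2, ih]
  have hinj : Function.Injective (fun h : (Yj q M j0 : Subgroup (Perm (Pos S q M))) =>
      (h : Perm (Pos S q M)).subtypePerm (p := bdW κ) (hgen h h.2).1) := by
    intro h h' heq
    apply Subtype.ext
    ext1 p
    obtain ⟨n, p0, hp0, rfl⟩ := bd_cover κ p
    rw [hit _ h.2, hit _ h'.2]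
    congr 1
    have h1 := congrArg (fun e => ((e ⟨p0, hp0⟩ : {p // bdW κ p}) : Pos S q M)) heq
    simpa using h1
  refine (Nat.card_le_card_of_injective _ hinj).trans ?_
  rw [Nat.card_perm, Nat.card_perm]
  refine Nat.factorial_le ?_
  refine Nat.card_le_card_of_surjective (fun x : Wd S q × Fin q =>
    (⟨(x.1, (((κ x.1).val + 1 + x.2.val : ℕ) : ZMod (q * M))), x.2.val, x.2.isLt, rfl⟩ :
      {p : Pos S q M // bdW κ p})) ?_
  rintro ⟨⟨w, k⟩, t, ht, hk⟩
  refine ⟨(w, ⟨t, ht⟩), ?_⟩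
  apply Subtype.ext
  simp only at hk
  ext
  · rfl
  · exact hk.symm

end Pool.Agent.Lib.TGX
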