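/-
TGX C.Restr. A legal automorphism of the labelled graph that maps some vertex of the component of `v0`
into this component restricts to a legal automorphism of the component (induced graph).
PROOF. `g` is a graph automorphism, so it maps the component of `v` onto the component of `g v`; both
are the component of `v0`. So `u ∈ comp ↔ g u ∈ comp` (reachability is preserved by `g` and `g⁻¹`:
e.g. `SimpleGraph.Iso.reachable_iff` for the isomorphism made from `g`), and `Equiv.Perm.subtypePerm`
gives `g'`. Adjacency in the induced graph is adjacency in `Γ`; the same `l ∈ L` works at every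
vertex.
-/
import Pool.Agent.Lib.TGX.C.DefsC

namespace Pool.Agent.Lib.TGX

open Equiv

theorem exists_restrict {V Ω : Type} (Γ : SimpleGraph V) (lam : V → Ω) (L : Subgroup (Perm Ω))
    (v0 : V) {g : Perm V} (hg : g ∈ Legal Γ lam L) {v : V} (hv : v ∈ comp Γ v0)
    (hgv : g v ∈ comp Γ v0) :
    ∃ g' ∈ Legal (Γ.induce (comp Γ v0)) (fun u : comp Γ v0 => lam u.1) L,
      ∀ u : comp Γ v0, ((g' u : comp Γ v0) : V) = g u := by
  have hiso : ∀ a b, Γ.Reachable (g a) (g b) ↔ Γ.Reachable a b := fun a b =>
    SimpleGraph.Iso.reachable_iff (φ := (⟨g, fun {a b} => hg.1 a b⟩ : Γ ≃g Γ))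
  have hmem : ∀ u, g u ∈ comp Γ v0 ↔ u ∈ comp Γ v0 := by
    intro u
    have hv' : Γ.Reachable v0 v := hv
    have hgv' : Γ.Reachable v0 (g v) := hgv
    show Γ.Reachable v0 (g u) ↔ Γ.Reachable v0 u
    constructor
    · intro h
      exact hv'.trans ((hiso v u).1 (hgv'.symm.trans h))
    · intro h
      exact hgv'.trans ((hiso v u).2 (hv'.symm.trans h))
  refine ⟨g.subtypePerm hmem, ⟨fun u v => ?_, fun w => ?_⟩, fun u => rfl⟩
  · exact hg.1 u.1 v.1
  · obtain ⟨l, hl, hl'⟩ := hg.2 w.1
    exact ⟨l, hl, fun u hu => hl' u.1 hu⟩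

end Pool.Agent.Lib.TGX
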