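/-
TGX C.Comp. The component of a labelled graph with its legal automorphisms is a locally-`L` pair.
PROOF. `Γ0 = Γ.induce (comp Γ v0)`, `G0 = Legal Γ0 lam L`.
connected: a walk in `Γ` between vertices of the component stays in it
(`SimpleGraph.ConnectedComponent` API, or `SimpleGraph.connected_iff_exists_forall_reachable` and
induction on walks; compare `SimpleGraph.ConnectedComponent.connected_toSimpleGraph` /
`induce_supp_connected`).
aut: definition of `Legal`.
trans: `htr` and `exists_restrict`.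
loc: first, `hloc` holds at every vertex `v` of `Γ`: take `h ∈ Legal` with `h v1 = v` (`htr`) and
`k ∈ L` with `lam (h u) = k (lam u)` for the neighbours `u` of `v1`; for `l ∈ L` the element
`h g h⁻¹`, where `g` is `hloc` for `k⁻¹ l k`, fixes `v` and acts on the labels of the neighbours of `v` by
`l`. For `v ∈ comp` the map `e u = lam u` from the neighbourhood in `Γ0` to `Ω` is bijective by
`hlam` (the unique neighbour `u` with label `ω` is in the component). `σ ∈ L` gives `g` by the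
above and `exists_restrict`. Conversely let `g ∈ G0`, `g v = v` with `e w' = σ (e w)` whenever
`w' = g w`; there is `l ∈ L` with `lam (g u) = l (lam u)` for all neighbours `u` of `v`; every `ω` is
the label of a neighbour `w`, and `g w` is a neighbour of `g v = v`, so `σ ω = l ω`: `σ = l ∈ L`.
-/
import Pool.Agent.Lib.TGX.C.Restr

namespace Pool.Agent.Lib.TGX

open Equiv Pool.Agent.Lib.TG12

theorem pair_of_comp {V Ω : Type} (Γ : SimpleGraph V) (lam : V → Ω)
    (hlam : ∀ v ω, ∃! u, Γ.Adj v u ∧ lam u = ω) (L : Subgroup (Perm Ω))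
    (htr : ∀ u v, ∃ g ∈ Legal Γ lam L, g u = v) (v1 : V)
    (hloc : ∀ l ∈ L, ∃ g ∈ Legal Γ lam L, g v1 = v1 ∧
      ∀ u, Γ.Adj v1 u → lam (g u) = l (lam u)) (v0 : V) :
    IsLocallyPair (Γ.induce (comp Γ v0))
      (Legal (Γ.induce (comp Γ v0)) (fun u : comp Γ v0 => lam u.1) L) L := by
  classical
  have hcl : ∀ {u v : V}, u ∈ comp Γ v0 → Γ.Adj u v → v ∈ comp Γ v0 := fun {u v} hu h =>
    show Γ.Reachable v0 v from SimpleGraph.Reachable.trans (show Γ.Reachable v0 u from hu) h.reachable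
  have hwalk : ∀ {u v : V} (_ : Γ.Walk u v) (hu : u ∈ comp Γ v0) (hv : v ∈ comp Γ v0),
      (Γ.induce (comp Γ v0)).Reachable ⟨u, hu⟩ ⟨v, hv⟩ := by
    intro u v p
    induction p with
    | nil => intro hu hv; exact SimpleGraph.Reachable.refl _
    | @cons a b c h p ih =>
      intro hu hv
      have hb : b ∈ comp Γ v0 := hcl hu h
      have h1 : (Γ.induce (comp Γ v0)).Adj ⟨a, hu⟩ ⟨b, hb⟩ := h
      exact h1.reachable.trans (ih hb hv)
  have hlocv : ∀ v : V, ∀ l ∈ L, ∃ g ∈ Legal Γ lam L, g v = v ∧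
      ∀ u, Γ.Adj v u → lam (g u) = l (lam u) := by
    intro v l hl
    obtain ⟨h, hh, hv⟩ := htr v1 v
    obtain ⟨k, hk, hk'⟩ := hh.2 v1
    obtain ⟨g, hg, hgv, hgl⟩ := hloc (k⁻¹ * l * k) (L.mul_mem (L.mul_mem (L.inv_mem hk) hl) hk)
    refine ⟨h * g * h⁻¹, (Legal Γ lam L).mul_mem ((Legal Γ lam L).mul_mem hh hg)
      ((Legal Γ lam L).inv_mem hh), ?_, fun u hu => ?_⟩
    · have h1 : h⁻¹ v = v1 := by rw [← hv]; simp
      rw [Perm.mul_apply, Perm.mul_apply, h1, hgv, hv]
    · obtain ⟨w, rfl⟩ := h.surjective u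
      have h1 : Γ.Adj v1 w := by
        rw [← hv] at hu
        exact (hh.1 v1 w).1 hu
      have h2 : Γ.Adj v1 (g w) := by
        have h3 := (hg.1 v1 w).2 h1
        rwa [hgv] at h3
      have h4 : (h * g * h⁻¹) (h w) = h (g w) := by simp
      rw [h4, hk' _ h2, hgl _ h1, hk' _ h1]
      simp
  refine ⟨?_, ?_, ?_, ?_⟩
  · rw [SimpleGraph.connected_iff]
    refine ⟨fun u v => ?_, ⟨⟨v0, show Γ.Reachable v0 v0 from SimpleGraph.Reachable.refl _⟩⟩⟩
    obtain ⟨u, hu⟩ := u
    obtain ⟨v, hv⟩ := v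
    have h1 : Γ.Reachable v0 u := hu
    have h2 : Γ.Reachable v0 v := hv
    obtain ⟨p⟩ := h1.symm.trans h2
    exact hwalk p hu hv
  · intro g hg u v
    exact hg.1 u v
  · intro u v
    obtain ⟨g, hg, hgu⟩ := htr u.1 v.1
    obtain ⟨g', hg', h⟩ := exists_restrict Γ lam L v0 hg u.2 (by rw [hgu]; exact v.2)
    exact ⟨g', hg', Subtype.ext (by rw [h, hgu])⟩
  · intro v
    have hbij : Function.Bijective
        (fun u : (Γ.induce (comp Γ v0)).neighborSet v => lam u.1.1) := by
      constructor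
      · intro a b hab
        obtain ⟨c, _, hc⟩ := hlam v.1 (lam a.1.1)
        have ha : Γ.Adj v.1 a.1.1 := a.2
        have hb : Γ.Adj v.1 b.1.1 := b.2
        have hab' : lam a.1.1 = lam b.1.1 := hab
        have h1 := hc a.1.1 ⟨ha, rfl⟩
        have h2 := hc b.1.1 ⟨hb, hab'.symm⟩
        exact Subtype.ext (Subtype.ext (h1.trans h2.symm))
      · intro ω
        obtain ⟨u, ⟨hadj, hl⟩, _⟩ := hlam v.1 ω
        exact ⟨⟨⟨u, hcl v.2 hadj⟩, hadj⟩, hl⟩
    refine ⟨Equiv.ofBijective _ hbij, fun σ => ⟨fun hσ => ?_, ?_⟩⟩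
    · obtain ⟨g, hg, hgv, hgl⟩ := hlocv v.1 σ hσ
      obtain ⟨g', hg', h⟩ := exists_restrict Γ lam L v0 hg v.2 (by rw [hgv]; exact v.2)
      refine ⟨g', hg', Subtype.ext (by rw [h, hgv]), fun w w' hw => ?_⟩
      have hw1 : w'.1.1 = g w.1.1 := by
        rw [hw, h]
      have hadj : Γ.Adj v.1 w.1.1 := w.2
      rw [Equiv.ofBijective_apply, Equiv.ofBijective_apply, hw1]
      exact hgl _ hadj
    · rintro ⟨g, hg, hgv, hgl⟩
      obtain ⟨l, hl, hl'⟩ := hg.2 v
      have hσ : σ = l := by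
        ext1 ω
        obtain ⟨w, hw⟩ := hbij.2 ω
        have hadj : (Γ.induce (comp Γ v0)).Adj v w.1 := w.2
        have hadj' : (Γ.induce (comp Γ v0)).Adj v (g w.1) := by
          have h3 := (hg.1 v w.1).2 hadj
          rwa [hgv] at h3
        have h1 := hgl w ⟨g w.1, hadj'⟩ rfl
        rw [Equiv.ofBijective_apply, Equiv.ofBijective_apply] at h1
        have hw' : lam w.1.1 = ω := hw
        have h2 : lam (g w.1).1 = l (lam w.1.1) := hl' w.1 hadj
        rw [hw'] at h1 h2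
        exact h1.symm.trans h2
      rw [hσ]
      exact hl

end Pool.Agent.Lib.TGX
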