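/-
TGX C.Loc. The local automorphisms `loc(T)`: apply `a` to the labels of the right vertices with
group coordinate in `T`.
PROOF. `g (false,x,ω) = (false,x,ω)`, `g (true,x,ω) = (true,x, if x ∈ T then a ω else ω)`: a
bijection. Adjacency does not change because `β (a ω) = β ω`. Labels of the neighbours of a right
vertex do not change. Labels of the neighbours of the left vertex `(false,x,ω1)`: a neighbour is
`(true, x yy(i,j), ω')`, `i = β ω1`, `j = β ω'`. If `j ≠ j0` then `yy (i,j) ∈ Yj q M j0`, so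
`x yy(i,j) ∈ T ↔ x ∈ T` (`hT`, `yy_mul_self`); if `j = j0` then `a ω' = ω'`. So the labels change by
`a` if `x ∈ T` and by `1` if not.
-/
import Pool.Agent.Lib.TGX.C.DefsC

namespace Pool.Agent.Lib.TGX

open Equiv

open Classical in
/-- apply `a` to the labels of the right vertices with group coordinate in `T` -/
private noncomputable def Loc_f {Ω S : Type} {q M : ℕ} (a : Perm Ω)
    (T : Set (Perm (Pos S q M))) (v : VV Ω S q M) : VV Ω S q M :=
  if v.1 = true ∧ v.2.1 ∈ T then (v.1, v.2.1, a v.2.2) else v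

private theorem Loc_f1 {Ω S : Type} {q M : ℕ} (a : Perm Ω) (T : Set (Perm (Pos S q M)))
    (v : VV Ω S q M) : (Loc_f a T v).1 = v.1 := by
  unfold Loc_f
  split_ifs <;> rfl

private theorem Loc_f2 {Ω S : Type} {q M : ℕ} (a : Perm Ω) (T : Set (Perm (Pos S q M)))
    (v : VV Ω S q M) : (Loc_f a T v).2.1 = v.2.1 := by
  unfold Loc_f
  split_ifs <;> rfl

private theorem Loc_fb {Ω S : Type} {q M : ℕ} (β : Ω → S) {a : Perm Ω}
    (haβ : ∀ x, β (a x) = β x) (T : Set (Perm (Pos S q M)))
    (v : VV Ω S q M) : β (Loc_f a T v).2.2 = β v.2.2 := by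
  unfold Loc_f
  split_ifs
  · exact haβ _
  · rfl

private theorem Loc_pos {Ω S : Type} {q M : ℕ} (a : Perm Ω) (T : Set (Perm (Pos S q M)))
    (v : VV Ω S q M) (h : v.1 = true ∧ v.2.1 ∈ T) : Loc_f a T v = (v.1, v.2.1, a v.2.2) := by
  unfold Loc_f
  exact if_pos h

private theorem Loc_neg {Ω S : Type} {q M : ℕ} (a : Perm Ω) (T : Set (Perm (Pos S q M)))
    (v : VV Ω S q M) (h : ¬ (v.1 = true ∧ v.2.1 ∈ T)) : Loc_f a T v = v := by
  unfold Loc_f
  exact if_neg h

private theorem Loc_inv {Ω S : Type} {q M : ℕ} (a b : Perm Ω) (hab : ∀ x, b (a x) = x)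
    (T : Set (Perm (Pos S q M))) (v : VV Ω S q M) : Loc_f b T (Loc_f a T v) = v := by
  by_cases h : v.1 = true ∧ v.2.1 ∈ T
  · rw [Loc_pos a T v h, Loc_pos b T (v.1, v.2.1, a v.2.2) h]
    show (v.1, v.2.1, b (a v.2.2)) = v
    rw [hab]
  · rw [Loc_neg a T v h, Loc_neg b T v h]

private noncomputable def Loc_p {Ω S : Type} {q M : ℕ} (a : Perm Ω)
    (T : Set (Perm (Pos S q M))) : Perm (VV Ω S q M) where
  toFun := Loc_f a T
  invFun := Loc_f a⁻¹ T
  left_inv := Loc_inv a a⁻¹ (fun x => by simp) T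
  right_inv := Loc_inv a⁻¹ a (fun x => by simp) T

private theorem Loc_rel {Ω S : Type} {q M : ℕ} (β : Ω → S) {a : Perm Ω}
    (haβ : ∀ x, β (a x) = β x) (T : Set (Perm (Pos S q M)))
    (u v : VV Ω S q M) : relC β (Loc_f a T u) (Loc_f a T v) ↔ relC β u v := by
  unfold relC
  rw [Loc_f1, Loc_f1, Loc_f2, Loc_f2, Loc_fb β haβ, Loc_fb β haβ]

theorem loc_mem {Ω S : Type} {q M : ℕ} (L : Subgroup (Perm Ω)) (β : Ω → S) {a : Perm Ω}
    (ha : a ∈ L) (haβ : ∀ x, β (a x) = β x) {j0 : S} (haj : ∀ x, β x = j0 → a x = x)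
    (T : Set (Perm (Pos S q M))) (hT : ∀ x, ∀ h ∈ Yj q M j0, x ∈ T → x * h ∈ T) :
    ∃ g ∈ Legal (GrC q M β) lamC L, (∀ x ω, g (false, x, ω) = (false, x, ω)) ∧
      (∀ x ω, x ∈ T → g (true, x, ω) = (true, x, a ω)) ∧
      ∀ x ω, x ∉ T → g (true, x, ω) = (true, x, ω) := by
  refine ⟨Loc_p a T, ⟨fun u v => ?_, fun v => ?_⟩, fun x ω => ?_, fun x ω hx => ?_,
    fun x ω hx => ?_⟩
  · show (relC β (Loc_f a T u) (Loc_f a T v) ∨ relC β (Loc_f a T v) (Loc_f a T u)) ↔
      (relC β u v ∨ relC β v u)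
    rw [Loc_rel β haβ, Loc_rel β haβ]
  · by_cases hv : v.1 = true
    · refine ⟨1, L.one_mem, fun u hu => ?_⟩
      have hu1 : u.1 = false := by
        rcases hu with h | h
        · exact absurd (h.1.symm.trans hv) Bool.false_ne_true
        · exact h.1
      have h2 : Loc_f a T u = u := Loc_neg a T u fun h => by
        rw [hu1] at h
        exact Bool.false_ne_true h.1
      show lamC (Loc_f a T u) = lamC u
      rw [h2]
    · have hv' : v.1 = false := by simpa using hv
      -- the label of a neighbour changes by `a` if `v.2.1 ∈ T`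
      have key : ∀ u, (GrC q M β).Adj v u → (u.1 = true ∧ (β u.2.2 = j0 ∨
          (u.2.1 ∈ T ↔ v.2.1 ∈ T))) := by
        intro u hu
        have h : relC β v u := by
          rcases hu with h | h
          · exact h
          · exact absurd h.2.1 hv
        refine ⟨h.2.1, ?_⟩
        by_cases hj : β u.2.2 = j0
        · exact Or.inl hj
        · right
          have hy : (yy (β v.2.2, β u.2.2) : Perm (Pos S q M)) ∈ Yj q M j0 :=
            Subgroup.subset_closure ⟨_, _, hj, rfl⟩
          constructor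
          · intro h1
            have h2 := hT _ _ hy h1
            rw [h.2.2, mul_assoc, yy_mul_self, mul_one] at h2
            exact h2
          · intro h1
            rw [h.2.2]
            exact hT _ _ hy h1
      by_cases hvT : v.2.1 ∈ T
      · refine ⟨a, ha, fun u hu => ?_⟩
        obtain ⟨h1, h2⟩ := key u hu
        show lamC (Loc_f a T u) = a (lamC u)
        by_cases h3 : u.2.1 ∈ T
        · rw [Loc_pos a T u ⟨h1, h3⟩]
          rfl
        · rw [Loc_neg a T u fun h => h3 h.2]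
          rcases h2 with h2 | h2
          · exact (haj _ h2).symm
          · exact absurd (h2.2 hvT) h3
      · refine ⟨1, L.one_mem, fun u hu => ?_⟩
        obtain ⟨h1, h2⟩ := key u hu
        show lamC (Loc_f a T u) = lamC u
        by_cases h3 : u.2.1 ∈ T
        · rw [Loc_pos a T u ⟨h1, h3⟩]
          rcases h2 with h2 | h2
          · exact haj _ h2
          · exact absurd (h2.1 h3) hvT
        · rw [Loc_neg a T u fun h => h3 h.2]
  · exact Loc_neg a T (false, x, ω) fun h => Bool.false_ne_true h.1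
  · exact Loc_pos a T (true, x, ω) ⟨rfl, hx⟩
  · exact Loc_neg a T (true, x, ω) fun h => hx h.2

end Pool.Agent.Lib.TGX
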