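/-
TGX C.Count. Lower bound for the vertex stabilisers of the component.
PROOF. `V0 = comp (GrC q M β) (false,1,ω0)`, `Y = Yj q M j0`, `κ = |Perm (Wd S q × Fin q)| ≥ |Y|`
(`card_Yj_le`). Let `X0 = {x : some (false, x, ω) ∈ V0}` and `N` = number of left cosets `xY` with
`x ∈ X0`. (1) `|V0| ≤ 2 |Ω| κ N`: the left vertices of `V0` inject into `X0 × Ω`, `|X0| ≤ |Y| N`; the
right vertices of `V0` inject into the left ones by `(true, x, ω) ↦ (false, x yy (β ω, β ω), ω)` (an
adjacent vertex, so in `V0`). (2) For a set `C` of such cosets let `T = {x : xY ∈ C}`; `loc_mem` gives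
`g_C` in `Legal (GrC q M β) lamC L`, fixing all left vertices, so by `exists_restrict` it restricts to
`g'_C` in the legal group of the component fixing all left vertices of `V0`. If `C ≠ C'` there is
`x ∈ X0`, `(false,x,ω) ∈ V0`, with `xY` in exactly one of them; take `ω1` with `a ω1 ≠ ω1`; then
`β ω1 ≠ j0`, `x' = x yy (β ω, β ω1) ∈ xY`, `(true, x', ω1) ∈ V0`, and exactly one of `g_C`, `g_C'` moves it.
So the stabiliser of a left vertex in `V0` has at least `2^N` elements. (3) Every vertex `v` of `V0` is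
the image of `(false,1,ω0)` under an element of the legal group of the component (`legal_trans`,
`exists_restrict`), and conjugation is a bijection between the stabilisers.
-/
import Pool.Agent.Lib.TGX.C.Restr
import Pool.Agent.Lib.TGX.C.Act
import Pool.Agent.Lib.TGX.C.Loc
import Pool.Agent.Lib.TGX.C.Bound

namespace Pool.Agent.Lib.TGX

open Equiv

private theorem ct_adj {V : Type} {Γ : SimpleGraph V} {v0 u w : V} (hu : u ∈ comp Γ v0)
    (h : Γ.Adj u w) : w ∈ comp Γ v0 :=
  (show Γ.Reachable v0 u from hu).trans h.reachable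

private theorem ct_right {Ω S : Type} {q M : ℕ} (β : Ω → S) {v0 : VV Ω S q M}
    {x : Perm (Pos S q M)} {ω : Ω} (h : (false, x, ω) ∈ comp (GrC q M β) v0) (ω' : Ω) :
    (true, x * yy (β ω, β ω'), ω') ∈ comp (GrC q M β) v0 :=
  ct_adj h (Or.inl ⟨rfl, rfl, rfl⟩)

private theorem ct_left {Ω S : Type} {q M : ℕ} (β : Ω → S) {v0 : VV Ω S q M}
    {x : Perm (Pos S q M)} {ω : Ω} (h : (true, x, ω) ∈ comp (GrC q M β) v0) :
    (false, x * yy (β ω, β ω), ω) ∈ comp (GrC q M β) v0 := by
  refine ct_adj h (Or.inr ⟨rfl, rfl, ?_⟩)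
  show x = x * yy (β ω, β ω) * yy (β ω, β ω)
  rw [mul_assoc, yy_mul_self, mul_one]

private theorem ct_finite {S : Type} [Finite S] (q M : ℕ) [NeZero q] [NeZero M] :
    Finite (Pos S q M) := by
  have : NeZero (q * M) := ⟨mul_ne_zero (NeZero.ne q) (NeZero.ne M)⟩
  have : Finite (Wd S q) := by
    unfold Wd
    infer_instance
  infer_instance

/-- the cosets of `Y` met by the left vertices of the component -/
private def ctCC {Ω S : Type} {q M : ℕ} (β : Ω → S) (j0 : S) (ω0 : Ω) :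
    Set (Perm (Pos S q M) ⧸ (Yj q M j0 : Subgroup (Perm (Pos S q M)))) :=
  {c | ∃ x ω, (false, x, ω) ∈ comp (GrC q M β) (false, 1, ω0) ∧ QuotientGroup.mk x = c}

private noncomputable def ctx {Ω S : Type} {q M : ℕ} (β : Ω → S) (u : VV Ω S q M) :
    Perm (Pos S q M) :=
  if u.1 then u.2.1 * yy (β u.2.2, β u.2.2) else u.2.1

private theorem ctx_mem {Ω S : Type} {q M : ℕ} (β : Ω → S) {v0 u : VV Ω S q M}
    (h : u ∈ comp (GrC q M β) v0) : (false, ctx β u, u.2.2) ∈ comp (GrC q M β) v0 := by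
  obtain ⟨b, x, ω⟩ := u
  cases b
  · exact h
  · exact ct_left β h

private theorem ct_one {Ω S : Type} [Finite Ω] [Finite S] {q M : ℕ} [NeZero q] [NeZero M]
    (β : Ω → S) (j0 : S) (ω0 : Ω) :
    Nat.card (comp (GrC q M β) (false, 1, ω0)) ≤
      2 * Nat.card Ω * Nat.card (Perm (Wd S q × Fin q)) *
        Nat.card (ctCC (q := q) (M := M) β j0 ω0) := by
  classical
  have : Finite (Pos S q M) := ct_finite q M
  have hfq : Finite (Perm (Pos S q M) ⧸ (Yj q M j0 : Subgroup (Perm (Pos S q M)))) :=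
    Quotient.finite _
  let cc : comp (GrC q M β) (false, 1, ω0) → ctCC (q := q) (M := M) β j0 ω0 := fun u =>
    ⟨QuotientGroup.mk (ctx β u.1), ctx β u.1, u.1.2.2, ctx_mem β u.2, rfl⟩
  have hy : ∀ u : comp (GrC q M β) (false, 1, ω0),
      ((cc u).1.out)⁻¹ * ctx β u.1 ∈ (Yj q M j0 : Subgroup (Perm (Pos S q M))) := by
    intro u
    exact QuotientGroup.eq.1 (QuotientGroup.out_eq' _)
  let F : comp (GrC q M β) (false, 1, ω0) →
      Bool × Ω × ↥(Yj q M j0 : Subgroup (Perm (Pos S q M))) × ctCC (q := q) (M := M) β j0 ω0 :=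
    fun u => (u.1.1, u.1.2.2, ⟨_, hy u⟩, cc u)
  have hF : Function.Injective F := by
    intro u u' h
    simp only [F, Prod.mk.injEq, Subtype.mk.injEq] at h
    obtain ⟨h1, h2, h3, h4⟩ := h
    rw [h4] at h3
    have h5 : ctx β u.1 = ctx β u'.1 := mul_left_cancel h3
    obtain ⟨⟨b, x, ω⟩, hu⟩ := u
    obtain ⟨⟨b', x', ω'⟩, hu'⟩ := u'
    simp only at h1 h2 h5
    subst h1 h2
    have h6 : x = x' := by
      cases b
      · exact h5
      · exact mul_right_cancel h5
    subst h6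
    rfl
  calc Nat.card (comp (GrC q M β) (false, 1, ω0)) ≤
      Nat.card (Bool × Ω × ↥(Yj q M j0 : Subgroup (Perm (Pos S q M))) ×
        ctCC (q := q) (M := M) β j0 ω0) := Nat.card_le_card_of_injective F hF
    _ = 2 * Nat.card Ω * Nat.card (Yj q M j0 : Subgroup (Perm (Pos S q M))) *
        Nat.card (ctCC (q := q) (M := M) β j0 ω0) := by
        rw [Nat.card_prod, Nat.card_prod, Nat.card_prod, Nat.card_eq_fintype_card (α := Bool),
          Fintype.card_bool]
        ring
    _ ≤ _ := by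
        have := card_Yj_le S q M j0
        gcongr

theorem stab_large {Ω S : Type} [Finite Ω] [Finite S] {q M : ℕ} [NeZero q] [NeZero M]
    (L : Subgroup (Perm Ω)) (htr : ∀ x y : Ω, ∃ g ∈ L, g x = y) (β : Ω → S)
    (hβ : Function.Surjective β) (hL : ∀ l ∈ L, ∀ x y, β x = β y → β (l x) = β (l y))
    {a : Perm Ω} (ha : a ∈ L) (ha1 : a ≠ 1) (haβ : ∀ x, β (a x) = β x) {j0 : S}
    (haj : ∀ x, β x = j0 → a x = x) (ω0 : Ω) :
    ∃ N : ℕ, Nat.card (comp (GrC q M β) (false, 1, ω0)) ≤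
        2 * Nat.card Ω * Nat.card (Perm (Wd S q × Fin q)) * N ∧
      ∀ v, 2 ^ N ≤ Nat.card {g : Perm (comp (GrC q M β) (false, 1, ω0)) //
        g ∈ Legal ((GrC q M β).induce (comp (GrC q M β) (false, 1, ω0)))
          (fun u : comp (GrC q M β) (false, 1, ω0) => lamC u.1) L ∧ g v = v} := by
  classical
  have : Finite (Pos S q M) := ct_finite q M
  have hfq : Finite (Perm (Pos S q M) ⧸ (Yj q M j0 : Subgroup (Perm (Pos S q M)))) :=
    Quotient.finite _
  refine ⟨Nat.card (ctCC (q := q) (M := M) β j0 ω0), ct_one β j0 ω0, ?_⟩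
  intro v
  have hv0 : ((false, 1, ω0) : VV Ω S q M) ∈ comp (GrC q M β) (false, 1, ω0) :=
    SimpleGraph.Reachable.refl _
  -- an element mapping the base vertex to `v`
  obtain ⟨k, hk, hkv⟩ := legal_trans (q := q) (M := M) L htr β hβ hL (false, 1, ω0) v.1
  obtain ⟨k', hk', hk'e⟩ := exists_restrict (GrC q M β) lamC L (false, 1, ω0) hk hv0
    (by rw [hkv]; exact v.2)
  have hk'v : k' ⟨(false, 1, ω0), hv0⟩ = v := by
    apply Subtype.ext
    rw [hk'e]
    exact hkv
  -- the local elements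
  have hloc : ∀ C : Set (ctCC (q := q) (M := M) β j0 ω0),
      ∃ g' ∈ Legal ((GrC q M β).induce (comp (GrC q M β) (false, 1, ω0)))
        (fun u : comp (GrC q M β) (false, 1, ω0) => lamC u.1) L,
      g' ⟨(false, 1, ω0), hv0⟩ = ⟨(false, 1, ω0), hv0⟩ ∧
      (∀ u : comp (GrC q M β) (false, 1, ω0), ∀ c : ctCC (q := q) (M := M) β j0 ω0,
        u.1.1 = true → QuotientGroup.mk u.1.2.1 = c.1 → c ∈ C →
        (g' u).1 = (true, u.1.2.1, a u.1.2.2)) ∧
      (∀ u : comp (GrC q M β) (false, 1, ω0), ∀ c : ctCC (q := q) (M := M) β j0 ω0,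
        u.1.1 = true → QuotientGroup.mk u.1.2.1 = c.1 → c ∉ C → (g' u).1 = u.1) := by
    intro C
    obtain ⟨g, hg, g1, g2, g3⟩ := loc_mem (q := q) (M := M) L β ha haβ haj
      {x | ∃ c ∈ C, QuotientGroup.mk x = c.1} (by
        rintro x h hh ⟨c, hc, hx⟩
        refine ⟨c, hc, ?_⟩
        rw [← hx]
        refine (QuotientGroup.eq.2 ?_).symm
        rwa [inv_mul_cancel_left])
    obtain ⟨g', hg', hg'e⟩ := exists_restrict (GrC q M β) lamC L (false, 1, ω0) hg hv0
      (by rw [g1]; exact hv0)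
    refine ⟨g', hg', ?_, ?_, ?_⟩
    · apply Subtype.ext
      rw [hg'e]
      exact g1 _ _
    · rintro ⟨⟨b, x, ω⟩, hu⟩ c hb hx hc
      simp only at hb
      subst hb
      rw [hg'e]
      exact g2 x ω ⟨c, hc, hx⟩
    · rintro ⟨⟨b, x, ω⟩, hu⟩ c hb hx hc
      simp only at hb
      subst hb
      rw [hg'e]
      refine g3 x ω ?_
      rintro ⟨c', hc', hx'⟩
      have : c = c' := Subtype.ext (hx.symm.trans hx')
      exact hc (this ▸ hc')
  choose G hG1 hG2 hG3 hG4 using hloc
  obtain ⟨ω1, hω1⟩ : ∃ ω1, a ω1 ≠ ω1 := by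
    by_contra hcon
    push Not at hcon
    exact ha1 (Perm.ext hcon)
  have hj : β ω1 ≠ j0 := fun e => hω1 (haj ω1 e)
  have hinj : ∀ C C' : Set (ctCC (q := q) (M := M) β j0 ω0), G C = G C' → C ⊆ C' := by
    intro C C' h c hc
    by_contra hc'
    obtain ⟨x, ω, hxω, hxc⟩ := c.2
    have hmem := ct_right β hxω ω1
    have hcos : QuotientGroup.mk (x * yy (β ω, β ω1)) = c.1 := by
      rw [← hxc]
      refine (QuotientGroup.eq.2 ?_).symm
      rw [inv_mul_cancel_left]
      exact Subgroup.subset_closure ⟨_, _, hj, rfl⟩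
    have e1 := hG3 C ⟨_, hmem⟩ c rfl hcos hc
    have e2 := hG4 C' ⟨_, hmem⟩ c rfl hcos hc'
    rw [h, e2] at e1
    simp only [Prod.mk.injEq, true_and] at e1
    exact hω1 e1.symm
  let F : Set (ctCC (q := q) (M := M) β j0 ω0) → {g : Perm (comp (GrC q M β) (false, 1, ω0)) //
        g ∈ Legal ((GrC q M β).induce (comp (GrC q M β) (false, 1, ω0)))
          (fun u : comp (GrC q M β) (false, 1, ω0) => lamC u.1) L ∧ g v = v} := fun C =>
    ⟨k' * G C * k'⁻¹, Subgroup.mul_mem _ (Subgroup.mul_mem _ hk' (hG1 C))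
      (Subgroup.inv_mem _ hk'), by
        have e : k'⁻¹ v = ⟨(false, 1, ω0), hv0⟩ := by
          rw [← hk'v]
          exact k'.symm_apply_apply _
        show k' (G C (k'⁻¹ v)) = v
        rw [e, hG2, hk'v]⟩
  have hF : Function.Injective F := by
    intro C C' h
    have h1 : k' * G C * k'⁻¹ = k' * G C' * k'⁻¹ := congrArg Subtype.val h
    have h2 : G C = G C' := mul_left_cancel (mul_right_cancel h1)
    exact Set.Subset.antisymm (hinj C C' h2) (hinj C' C h2.symm)
  have hcard := Nat.card_le_card_of_injective F hF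
  refine le_trans (le_of_eq ?_) hcard
  let _ : Fintype (ctCC (q := q) (M := M) β j0 ω0) := Fintype.ofFinite _
  rw [Nat.card_eq_fintype_card, Nat.card_eq_fintype_card, Fintype.card_set]

end Pool.Agent.Lib.TGX
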