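/-
TGX C.Walk. The component of `(false, 1, ω0)` has at least `M` vertices.
PROOF. `g_0 = 1`, `g_{s+1} = g_s * yy (w s)` (`s : ℕ`, `w s = w.1 (s : ZMod q)`). There are points
`ω_s` (`hβ`, `ω_0 = ω0`) with `β ω_s = (w s).1` for `s` even, `β ω_s = (w s).2` for `s` odd. Let
`v_s = (false, g_s, ω_s)` for `s` even, `(true, g_s, ω_s)` for `s` odd. `v_s ~ v_{s+1}`: `s` even:
`g_{s+1} = g_s yy (β ω_s, β ω_{s+1})` because `β ω_{s+1} = (w (s+1)).2 = (w s).2`; `s` odd:
`g_s = g_{s+1} yy (w s)` (`yy_mul_self`) and `w s = (β ω_{s+1}, β ω_s)` because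
`β ω_{s+1} = (w (s+1)).1 = (w s).1`. So all `v_s` are in the component. By induction
`g_s⁻¹ (w, 0) = (w, s)` (`yy (w s) (w, s) = (w, s+1)`, first case of `yfun`; `red q M s = s`). So the
`g_s`, `s < q M`, are pairwise distinct, and `s ↦ v_s` for the even `s < q M` is injective: at least
`q M / 2 ≥ M` vertices (`q` even, nonzero).
-/
import Pool.Agent.Lib.TGX.C.DefsC

namespace Pool.Agent.Lib.TGX

open Equiv

/-- the partial products of the letters of the word `w` -/
private noncomputable def gs {S : Type} {q M : ℕ} (w : Wd S q) : ℕ → Perm (Pos S q M)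
  | 0 => 1
  | s + 1 => gs w s * yy (w.1 ((s : ℕ) : ZMod q))

private theorem gs_inv {S : Type} {q M : ℕ} (w : Wd S q) (s : ℕ) :
    (gs w s : Perm (Pos S q M))⁻¹ (w, 0) = (w, ((s : ℕ) : ZMod (q * M))) := by
  induction s with
  | zero => simp [gs]
  | succ s ih =>
    have h1 : (yy (w.1 ((s : ℕ) : ZMod q)) : Perm (Pos S q M))⁻¹ = yy (w.1 ((s : ℕ) : ZMod q)) :=
      inv_eq_of_mul_eq_one_left (yy_mul_self _)
    have h2 : (gs w (s + 1) : Perm (Pos S q M)) = gs w s * yy (w.1 ((s : ℕ) : ZMod q)) := rfl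
    rw [h2, mul_inv_rev, Perm.mul_apply, ih, h1, yy_apply]
    have h3 : red q M ((s : ℕ) : ZMod (q * M)) = ((s : ℕ) : ZMod q) := map_natCast _ _
    unfold yfun
    rw [if_pos (by rw [h3])]
    simp

theorem comp_large {Ω S : Type} [Finite Ω] [Finite S] {q M : ℕ} [NeZero q] [NeZero M]
    (hq : Even q) (β : Ω → S) (hβ : Function.Surjective β) (w : Wd S q)
    (hw : ∀ k : ℕ, (Even k → (w.1 ((k : ℕ) : ZMod q)).2 = (w.1 ((k + 1 : ℕ) : ZMod q)).2) ∧
      (Odd k → (w.1 ((k : ℕ) : ZMod q)).1 = (w.1 ((k + 1 : ℕ) : ZMod q)).1))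
    (ω0 : Ω) (hω0 : β ω0 = (w.1 0).1) :
    M ≤ Nat.card (comp (GrC q M β) (false, 1, ω0)) := by
  classical
  -- the points
  have hom : ∀ s : ℕ, ∃ ω : Ω, (Even s → β ω = (w.1 ((s : ℕ) : ZMod q)).1) ∧
      (Odd s → β ω = (w.1 ((s : ℕ) : ZMod q)).2) ∧ (s = 0 → ω = ω0) := by
    intro s
    by_cases h0 : s = 0
    · subst h0
      refine ⟨ω0, fun _ => ?_, fun h => absurd h (by decide), fun _ => rfl⟩
      rw [hω0, Nat.cast_zero]
    · by_cases he : Even s
      · obtain ⟨ω, hω⟩ := hβ (w.1 ((s : ℕ) : ZMod q)).1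
        exact ⟨ω, fun _ => hω, fun h => absurd he (Nat.not_even_iff_odd.2 h), fun h => absurd h h0⟩
      · obtain ⟨ω, hω⟩ := hβ (w.1 ((s : ℕ) : ZMod q)).2
        exact ⟨ω, fun h => absurd h he, fun _ => hω, fun h => absurd h h0⟩
  choose om ho1 ho2 ho3 using hom
  let v : ℕ → VV Ω S q M := fun s => (!decide (Even s), gs w s, om s)
  have hv0 : v 0 = (false, 1, ω0) := by
    show ((!decide (Even 0)), gs w 0, om 0) = (false, 1, ω0)
    rw [ho3 0 rfl]
    rfl
  have hadj : ∀ s, (GrC q M β).Adj (v s) (v (s + 1)) := by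
    intro s
    by_cases he : Even s
    · left
      have he' : ¬ Even (s + 1) := by
        rw [Nat.even_add_one]
        exact not_not.2 he
      refine ⟨?_, ?_, ?_⟩
      · show (!decide (Even s)) = false
        simp [he]
      · show (!decide (Even (s + 1))) = true
        simp [he']
      · show (gs w (s + 1) : Perm (Pos S q M)) = gs w s * yy (β (om s), β (om (s + 1)))
        have h1 : (β (om s), β (om (s + 1))) = w.1 ((s : ℕ) : ZMod q) := by
          rw [ho1 s he, ho2 (s + 1) (Nat.not_even_iff_odd.1 he'), ← (hw s).1 he]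
        rw [h1]
        rfl
    · right
      have he' : Even (s + 1) := Nat.even_add_one.2 he
      have hodd : Odd s := Nat.not_even_iff_odd.1 he
      refine ⟨?_, ?_, ?_⟩
      · show (!decide (Even (s + 1))) = false
        simp [he']
      · show (!decide (Even s)) = true
        simp [he]
      · show (gs w s : Perm (Pos S q M)) = gs w (s + 1) * yy (β (om (s + 1)), β (om s))
        have h1 : (β (om (s + 1)), β (om s)) = w.1 ((s : ℕ) : ZMod q) := by
          rw [ho1 (s + 1) he', ho2 s hodd, ← (hw s).2 hodd]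
        have h2 : (gs w (s + 1) : Perm (Pos S q M)) = gs w s * yy (w.1 ((s : ℕ) : ZMod q)) := rfl
        rw [h1, h2, mul_assoc, yy_mul_self, mul_one]
  have hreach : ∀ s, v s ∈ comp (GrC q M β) (false, 1, ω0) := by
    intro s
    induction s with
    | zero =>
      rw [hv0]
      exact SimpleGraph.Reachable.refl _
    | succ s ih => exact SimpleGraph.Reachable.trans ih (hadj s).reachable
  -- injectivity
  have hq2 : 2 ≤ q := by
    obtain ⟨r, hr⟩ := hq
    have := NeZero.ne q
    omega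
  have hM : 2 * M ≤ q * M := Nat.mul_le_mul_right M hq2
  have : NeZero (q * M) := ⟨mul_ne_zero (NeZero.ne q) (NeZero.ne M)⟩
  let f : Fin M → comp (GrC q M β) (false, 1, ω0) := fun t => ⟨v (2 * t.1), hreach _⟩
  have hf : Function.Injective f := by
    intro t t' htt
    have h1 : v (2 * t.1) = v (2 * t'.1) := congrArg Subtype.val htt
    have h2 : (gs w (2 * t.1) : Perm (Pos S q M)) = gs w (2 * t'.1) :=
      congrArg (fun x : VV Ω S q M => x.2.1) h1
    have h3 := gs_inv (M := M) w (2 * t.1)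
    rw [h2, gs_inv] at h3
    have h4 : ((2 * t'.1 : ℕ) : ZMod (q * M)) = ((2 * t.1 : ℕ) : ZMod (q * M)) :=
      congrArg Prod.snd h3
    have h5 := congrArg ZMod.val h4
    rw [ZMod.val_cast_of_lt (by have := t'.2; omega),
      ZMod.val_cast_of_lt (by have := t.2; omega)] at h5
    exact Fin.ext (by omega)
  have : Finite (Wd S q) := by
    unfold Wd
    infer_instance
  have := Nat.card_le_card_of_injective f hf
  rwa [Nat.card_fin] at this

end Pool.Agent.Lib.TGX
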