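/-
TGX C.Word. A closed Hamiltonian walk of the complete bipartite graph on `S ⊔ S` as a word.
PROOF. `r = Nat.card S ≥ 2`, `e : ZMod r ≃ S` (or `Fin r ≃ S`). For `v : ℕ` let
`L v = (e ((v+1)/2), e (v/2))` (natural division, arguments cast to `ZMod r`), so
`L (2u) = (e u, e u)`, `L (2u+1) = (e (u+1), e u)`, and `L (v + 2r) = L v`. `w k = L k.val`,
`k : ZMod (2r)`; by periodicity `w (v : ℕ) = L v` for every natural `v`. For `v` even `L v`, `L (v+1)`
have the same second index and different first indices (`e u ≠ e (u+1)` as `r ≥ 2`), for `v` odd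
the same first index and different second indices. Every `i = e u` occurs in `L (2u)`.
-/
import Pool.Agent.Lib.TGX.C.DefsC

namespace Pool.Agent.Lib.TGX

private def Word_L {S : Type} {r : ℕ} (e : ZMod r → S) (v : ℕ) : S × S :=
  (e (((v + 1) / 2 : ℕ) : ZMod r), e ((v / 2 : ℕ) : ZMod r))

private theorem Word_per {S : Type} {r : ℕ} (e : ZMod r → S) :
    Function.Periodic (Word_L e) (2 * r) := by
  intro v
  have h1 : (v + 2 * r + 1) / 2 = (v + 1) / 2 + r := by omega
  have h2 : (v + 2 * r) / 2 = v / 2 + r := by omega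
  simp only [Word_L, h1, h2, Nat.cast_add, ZMod.natCast_self, add_zero]

private theorem Word_even {S : Type} {r : ℕ} (e : ZMod r → S) (u : ℕ) :
    Word_L e (2 * u) = (e (u : ZMod r), e (u : ZMod r)) := by
  have h1 : (2 * u + 1) / 2 = u := by omega
  have h2 : (2 * u) / 2 = u := by omega
  simp only [Word_L, h1, h2]

private theorem Word_odd {S : Type} {r : ℕ} (e : ZMod r → S) (u : ℕ) :
    Word_L e (2 * u + 1) = (e ((u + 1 : ℕ) : ZMod r), e (u : ZMod r)) := by
  have h1 : (2 * u + 1 + 1) / 2 = u + 1 := by omega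
  have h2 : (2 * u + 1) / 2 = u := by omega
  simp only [Word_L, h1, h2]

theorem exists_word (S : Type) [Finite S] (hS : 2 ≤ Nat.card S) :
    ∃ w : Wd S (2 * Nat.card S), ∀ k : ℕ,
      (Even k → (w.1 ((k : ℕ) : ZMod (2 * Nat.card S))).2 =
        (w.1 ((k + 1 : ℕ) : ZMod (2 * Nat.card S))).2) ∧
      (Odd k → (w.1 ((k : ℕ) : ZMod (2 * Nat.card S))).1 =
        (w.1 ((k + 1 : ℕ) : ZMod (2 * Nat.card S))).1) := by
  generalize hr : Nat.card S = r at hS
  have : NeZero r := ⟨by omega⟩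
  have : NeZero (2 * r) := ⟨by omega⟩
  have : Fact (1 < r) := ⟨by omega⟩
  have hc : Nat.card (ZMod r) = Nat.card S := by rw [Nat.card_zmod, hr]
  obtain ⟨e⟩ : Nonempty (ZMod r ≃ S) := Finite.card_eq.1 hc
  let w : ZMod (2 * r) → S × S := fun k => Word_L e k.val
  have hw : ∀ v : ℕ, w (v : ZMod (2 * r)) = Word_L e v := by
    intro v
    show Word_L e ((v : ZMod (2 * r)).val) = _
    rw [ZMod.val_natCast]
    exact (Word_per e).map_mod_nat v
  have hne : ∀ v : ℕ, Word_L e v ≠ Word_L e (v + 1) := by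
    intro v h
    rcases Nat.even_or_odd' v with ⟨u, rfl | rfl⟩
    · rw [Word_even, Word_odd] at h
      have h1 := e.injective (Prod.ext_iff.1 h).1
      simp at h1
    · have h2 : 2 * u + 1 + 1 = 2 * (u + 1) := by ring
      rw [h2, Word_even, Word_odd] at h
      have h1 := e.injective (Prod.ext_iff.1 h).2
      simp at h1
  have hk : ∀ k : ZMod (2 * r), w (k + 1) = Word_L e (k.val + 1) := by
    intro k
    rw [← hw]
    congr 1
    push_cast
    rw [ZMod.natCast_zmod_val]
  have hw1 : ∀ k, w k ≠ w (k + 1) := by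
    intro k
    rw [hk]
    exact hne k.val
  have hs : ∀ i : S, w ((2 * (e.symm i).val : ℕ) : ZMod (2 * r)) = (i, i) := by
    intro i
    rw [hw, Word_even, ZMod.natCast_zmod_val, Equiv.apply_symm_apply]
  refine ⟨⟨w, hw1, fun i => ⟨_, by rw [hs i]⟩, fun j => ⟨_, by rw [hs j]⟩⟩, ?_⟩
  intro k
  constructor
  · rintro ⟨u, rfl⟩
    show (w _).2 = (w _).2
    rw [hw, hw, ← two_mul, Word_even, Word_odd]
  · rintro ⟨u, rfl⟩
    show (w _).1 = (w _).1
    have h2 : 2 * u + 1 + 1 = 2 * (u + 1) := by ring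
    rw [hw, hw, h2, Word_even, Word_odd]

end Pool.Agent.Lib.TGX
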