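/-
TGX C.Fin. THEOREM C (criterion). `L` transitive, `β : Ω → S` onto with fibres permuted by `L`,
`1 ≠ a ∈ L` preserves every fibre and is trivial on one fibre: exponential graph growth.
PROOF. `a` moves a point, not in the fibre of `j0`, so `|S| ≥ 2`. `q = 2 |S|`, `w` from
`exists_word`, `ω0` with `β ω0 = (w 0).1`. For `m : ℕ`, `M = m + 1`: `V m` = component of
`(false,1,ω0)` in `GrC q M β` (a finite type), `Γ m` the induced graph, `G m` its legal group. It is a
locally-`L` pair by `pair_of_comp`, `nbr_unique`, `legal_trans`, `legal_loc`. `|V m| ≥ m + 1`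
(`comp_large`). With `K = 2 |Ω| |Perm (Wd S q × Fin q)| ≥ 1` (independent of `m`) and
`c = 2 ^ (1 / K : ℝ) > 1`: `c ^ |V m| = 2 ^ (|V m| / K) ≤ 2 ^ N ≤ |G_v|` by `stab_large`.
-/
import Pool.Agent.Lib.TGX.C.Comp
import Pool.Agent.Lib.TGX.C.Word
import Pool.Agent.Lib.TGX.C.Walk
import Pool.Agent.Lib.TGX.C.Count

namespace Pool.Agent.Lib.TGX

open Equiv Pool.Agent.Lib.TG12

theorem finite_Wd (S : Type) [Finite S] (q : ℕ) [NeZero q] : Finite (Wd S q) := by
  unfold Wd
  infer_instance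

theorem expGrowth_of_block {Ω S : Type} [Finite Ω] [Finite S]
    (L : Subgroup (Perm Ω)) (htr : ∀ x y : Ω, ∃ g ∈ L, g x = y) (β : Ω → S)
    (hβ : Function.Surjective β) (hL : ∀ l ∈ L, ∀ x y, β x = β y → β (l x) = β (l y))
    {a : Perm Ω} (ha : a ∈ L) (ha1 : a ≠ 1) (haβ : ∀ x, β (a x) = β x) {j0 : S}
    (haj : ∀ x, β x = j0 → a x = x) : HasExpGrowth L := by
  obtain ⟨x0, hx0⟩ : ∃ x, a x ≠ x := by
    by_contra h
    push Not at h
    exact ha1 (Equiv.ext h)
  have hne : β x0 ≠ j0 := fun h => hx0 (haj x0 h)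
  haveI : Nontrivial S := ⟨β x0, j0, hne⟩
  have hS : 2 ≤ Nat.card S := Finite.one_lt_card
  set q : ℕ := 2 * Nat.card S with hq
  haveI : NeZero q := ⟨by omega⟩
  obtain ⟨w, hw⟩ := exists_word S hS
  obtain ⟨ω0, hω0⟩ := hβ (w.1 0).1
  haveI := finite_Wd S q
  haveI : Nonempty Ω := ⟨ω0⟩
  set K : ℕ := 2 * Nat.card Ω * Nat.card (Perm (Wd S q × Fin q)) with hK
  have hKpos : 0 < K := by
    have h1 : 0 < Nat.card Ω := Nat.card_pos
    have h2 : 0 < Nat.card (Perm (Wd S q × Fin q)) := Nat.card_pos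
    positivity
  have hKr : (0 : ℝ) < K := by exact_mod_cast hKpos
  have hfin : ∀ m : ℕ, Finite (comp (GrC q (m + 1) β) (false, 1, ω0)) := by
    intro m
    haveI : NeZero (q * (m + 1)) := ⟨by
      have : 0 < q := by omega
      positivity⟩
    infer_instance
  refine ⟨fun m => comp (GrC q (m + 1) β) (false, 1, ω0),
    fun m => (GrC q (m + 1) β).induce (comp (GrC q (m + 1) β) (false, 1, ω0)),
    fun m => Legal ((GrC q (m + 1) β).induce (comp (GrC q (m + 1) β) (false, 1, ω0)))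
      (fun u : comp (GrC q (m + 1) β) (false, 1, ω0) => lamC u.1) L,
    (2 : ℝ) ^ (1 / K : ℝ), ?_, hfin, ?_, ?_, ?_⟩
  · exact Real.one_lt_rpow (by norm_num) (by positivity)
  · refine Filter.tendsto_atTop_mono (fun m => ?_) Filter.tendsto_id
    have := comp_large (M := m + 1) (q := q) ⟨Nat.card S, by omega⟩ β hβ w hw ω0 hω0
    simp only [id]
    exact le_trans (Nat.le_succ m) this
  · intro m
    exact pair_of_comp (GrC q (m + 1) β) lamC (nbr_unique β) L (legal_trans L htr β hβ hL)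
      (false, 1, ω0) (fun l hl => legal_loc L β hβ hL ω0 hl) (false, 1, ω0)
  · intro m v
    obtain ⟨N, hN, hv⟩ := stab_large (q := q) (M := m + 1) L htr β hβ hL ha ha1 haβ haj ω0
    have h1 := hv v
    have h2 : ((2 : ℝ) ^ (1 / K : ℝ)) ^ (Nat.card (comp (GrC q (m + 1) β) (false, 1, ω0))) ≤
        (2 : ℝ) ^ N := by
      rw [← Real.rpow_natCast, ← Real.rpow_mul (by norm_num), ← Real.rpow_natCast 2 N]
      apply Real.rpow_le_rpow_of_exponent_le (by norm_num)
      rw [one_div, inv_mul_le_iff₀ hKr]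
      exact_mod_cast hN
    refine h2.trans ?_
    exact_mod_cast h1

end Pool.Agent.Lib.TGX
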