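/-
TGX C.NotPP. A transitive group without property (P) has exponential graph growth.
PROOF. Take `X`, `ω0`, `a ∈ X`, `a ≠ 1`, `a (x ω0) = x ω0` for all `x ∈ X`. `S` = quotient of `Ω` by the
equivalence relation `∃ g ∈ X, g x = y`, `β` the quotient map. `L` permutes the classes because `X`
is normalised by `L` (`g x = y` gives `(l g l⁻¹) (l x) = l y`). `a ∈ X` preserves the classes and is
trivial on the class of `ω0`. `expGrowth_of_block`.
-/
import Pool.Agent.Lib.TGX.C.Fin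

namespace Pool.Agent.Lib.TGX

open Equiv Pool.Agent.Lib.TG12

private theorem NotPP_ia {α : Type} (x : Perm α) (y : α) : x⁻¹ (x y) = y :=
  x.symm_apply_apply y

private def NotPP_rel {Ω : Type} (X : Subgroup (Perm Ω)) : Setoid Ω where
  r x y := ∃ g ∈ X, g x = y
  iseqv := {
    refl := fun _ => ⟨1, X.one_mem, rfl⟩
    symm := by
      rintro x y ⟨g, hg, rfl⟩
      exact ⟨g⁻¹, X.inv_mem hg, NotPP_ia g x⟩
    trans := by
      rintro x y z ⟨g, hg, rfl⟩ ⟨h, hh, rfl⟩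
      exact ⟨h * g, X.mul_mem hh hg, rfl⟩ }

theorem exp_of_not_PP {Ω : Type} [Finite Ω] (L : Subgroup (Perm Ω)) (htr : L ∈ Tr Ω)
    (h : ¬ PP L) : HasExpGrowth L := by
  unfold PP at h
  push Not at h
  obtain ⟨X, ⟨hX, hn⟩, ω0, a, ha, hfix, ha1⟩ := h
  refine expGrowth_of_block (S := Quotient (NotPP_rel X)) L htr
    (Quotient.mk (NotPP_rel X)) Quotient.mk_surjective ?_ (hX ha) ha1 ?_
    (j0 := Quotient.mk (NotPP_rel X) ω0) ?_
  · intro l hl x y hxy
    obtain ⟨g, hg, hgx⟩ := Quotient.exact hxy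
    refine Quotient.sound ⟨l * g * l⁻¹, hn l hl g hg, ?_⟩
    rw [Perm.mul_apply, Perm.mul_apply, NotPP_ia, hgx]
  · intro x
    exact Quotient.sound ⟨a⁻¹, X.inv_mem ha, NotPP_ia a x⟩
  · intro x hx
    obtain ⟨g, hg, hgx⟩ := Quotient.exact hx
    have h1 := hfix g⁻¹ (X.inv_mem hg)
    rwa [← hgx, NotPP_ia] at h1

end Pool.Agent.Lib.TGX
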